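import Pool.Agent.Lead.Rs

namespace Pool.Agent.Results.MP_412c32_gt.Bounding

open Pool.Agent.Lead.Rs

theorem result : rs (inferInstance : TopologicalSpace ℚ) = bnd := main

end Pool.Agent.Results.MP_412c32_gt.Bounding
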